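import Pool.Agent.P8H39.TI.Stm3

/-! # Project TI, package BIG (and FIN3) -/

set_option autoImplicit false

namespace Pool.Agent.P8H90.TI

open Finset Pool.Agent.P8H39.TI

theorem card_above (n k : ℕ) (R : Finset (Fin n)) (hk : R.card ≤ k) :
    ((slice n k).filter (fun A => R ⊆ A)).card = (n - R.card).choose (k - R.card) := by
  classical
  have h1 : (powersetCard (k - R.card) (univ \ R)).card = (n - R.card).choose (k - R.card) := by
    rw [card_powersetCard, card_sdiff_of_subset (subset_univ R), card_univ, Fintype.card_fin]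
  rw [← h1]
  refine card_bij' (fun A _ => A \ R) (fun X _ => X ∪ R) ?_ ?_ ?_ ?_
  · intro A hA
    simp only [mem_filter, mem_powersetCard, subset_univ, true_and] at hA
    rw [mem_powersetCard]
    exact ⟨sdiff_subset_sdiff (subset_univ A) (Subset.refl R), by
      rw [card_sdiff_of_subset hA.2, hA.1]⟩
  · intro X hX
    rw [mem_powersetCard] at hX
    have hd : Disjoint X R := by
      refine disjoint_left.2 fun a ha hb => ?_
      have := hX.1 ha
      rw [mem_sdiff] at this
      exact this.2 hb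
    simp only [mem_filter, mem_powersetCard, subset_univ, true_and]
    exact ⟨by rw [card_union_of_disjoint hd, hX.2]; omega, subset_union_right⟩
  · intro A hA
    simp only [mem_filter, mem_powersetCard, subset_univ, true_and] at hA
    exact sdiff_union_of_subset hA.2
  · intro X hX
    rw [mem_powersetCard] at hX
    have hd : Disjoint X R := by
      refine disjoint_left.2 fun a ha hb => ?_
      have := hX.1 ha
      rw [mem_sdiff] at this
      exact this.2 hb
    exact union_sdiff_cancel_right hd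

theorem card_star (n k : ℕ) (T : Finset (Fin n)) (hk : T.card ≤ k) :
    (star k T).card = (n - T.card).choose (k - T.card) := card_above n k T hk

theorem deg_le (n k : ℕ) (F : Finset (Finset (Fin n))) (hF : ∀ A ∈ F, A.card = k)
    (R : Finset (Fin n)) (hk : R.card ≤ k) : deg F R ≤ (n - R.card).choose (k - R.card) := by
  rw [← card_above n k R hk]
  refine card_le_card fun A hA => ?_
  rw [mem_filter] at hA ⊢
  exact ⟨mem_powersetCard.2 ⟨subset_univ A, hF A hA.1⟩, hA.2⟩

theorem deg_mono {n : ℕ} {F G : Finset (Finset (Fin n))} (h : F ⊆ G) (R : Finset (Fin n)) :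
    deg F R ≤ deg G R := card_le_card (filter_subset_filter _ h)

theorem pow_le (x s p : ℝ) (hx : 0 ≤ x) (hxs : x ≤ s) (hp : 2 ≤ p) :
    x ^ p ≤ s ^ (p - 2) * x ^ 2 := by
  rcases hx.eq_or_lt with h | h
  · rw [← h, Real.zero_rpow (by linarith)]
    simp
  · have e : x ^ p = x ^ (p - 2) * x ^ 2 := by
      rw [← Real.rpow_natCast x 2, ← Real.rpow_add h]
      congr 1
      push_cast
      ring
    rw [e]
    exact mul_le_mul_of_nonneg_right (Real.rpow_le_rpow hx hxs (by linarith)) (sq_nonneg x)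

theorem range_two (t κ : ℕ) (ht : 1 ≤ t) (hκ : 2 ≤ κ) :
    (t + 1) * (κ + 1) ≤ t + 4 * (t + κ) * κ := by
  nlinarith [Nat.zero_le (t * κ), Nat.zero_le (κ * κ)]

theorem t_BIG (hSYM : S_SYM) (hNT : S_NT) (hSUM : S_SUM) (hL : S_LTWO) : S_BIG := by
  classical
  intro n k t r p F T ht hk htr hrk hn hF hT hp
  have hkt : t ≤ k := by omega
  have hrge : (t + 1) * (k - t + 1) ≤ n := by
    have h1 := range_two t (k - t) ht (by omega)
    have h2 : t + (k - t) = k := by omega
    rw [h2] at h1
    have h3 : t + 4 * k * (k - t) ≤ n := le_trans (Nat.le_add_right _ _) hn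
    exact le_trans h1 h3
  by_cases hc : ∃ T' : Finset (Fin n), T'.card = t ∧ ∀ A ∈ F, T' ⊆ A
  · obtain ⟨T', hT', hA⟩ := hc
    rw [hSYM n k r p T T' (by rw [hT, hT'])]
    have hsub : F ⊆ star k T' := by
      intro A h
      exact mem_filter.2 ⟨mem_powersetCard.2 ⟨subset_univ A, hF.1 A h⟩, hA A h⟩
    refine sum_le_sum fun R _ => ?_
    exact Real.rpow_le_rpow (Nat.cast_nonneg _) (Nat.cast_le.2 (deg_mono hsub R)) (by linarith)
  · have hc' : ∀ T' : Finset (Fin n), T'.card = t → ∃ A ∈ F, ¬ T' ⊆ A := by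
      intro T' hT'
      by_contra hcon
      refine hc ⟨T', hT', fun A hA => ?_⟩
      by_contra h2
      exact hcon ⟨A, hA, h2⟩
    have hhalf := hNT n k t F ht hk hn hF hc'
    have hkn : k ≤ n := by
      have h3 : t + 4 * k * (k - t) ≤ n := le_trans (Nat.le_add_right _ _) hn
      have h4 : k ≤ 4 * k * (k - t) := by
        have : 1 ≤ k - t := by omega
        nlinarith
      omega
    have hD : (star k T).card = (n - t).choose (k - t) := by
      rw [card_star n k T (by omega), hT]
    have hDpos : 0 < (n - t).choose (k - t) := Nat.choose_pos (by omega)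
    have hs : t + k + 2 * t * (k - t) ^ 2 ≤ n := by
      have h4 : k ≤ 4 * k * (k - t) := by
        have : 1 ≤ k - t := by omega
        nlinarith
      have h5 : 2 * t * (k - t) ^ 2 ≤ 6 * t * (k - t) ^ 3 := by
        have h6 : 1 ≤ k - t := by omega
        have h7 : (k - t) ^ 2 ≤ (k - t) ^ 3 := Nat.pow_le_pow_right h6 (by norm_num)
        calc 2 * t * (k - t) ^ 2 ≤ 6 * t * (k - t) ^ 2 := Nat.mul_le_mul_right _ (by omega)
          _ ≤ 6 * t * (k - t) ^ 3 := Nat.mul_le_mul_left _ h7
      omega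
    obtain ⟨hA, hB⟩ := hSUM n k t r T ht htr hrk hT hs
    have hLt := hL n k t r F T ht (by omega) hrge hF hT hrk
    rw [hD] at hLt
    have hs0 : (0 : ℝ) < ((n - r).choose (k - r) : ℝ) := by
      exact_mod_cast Nat.choose_pos (show k - r ≤ n - r by omega)
    have hDr : (0 : ℝ) < ((n - t).choose (k - t) : ℝ) := by exact_mod_cast hDpos
    have hhr : 2 * (F.card : ℝ) ≤ ((n - t).choose (k - t) : ℝ) := by exact_mod_cast hhalf
    have hZ : (0 : ℝ) ≤ ∑ R ∈ slice n r, (deg (star k T) R : ℝ) ^ 2 :=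
      sum_nonneg fun R _ => sq_nonneg _
    -- the second moments
    have h2 : ∑ R ∈ slice n r, (deg F R : ℝ) ^ 2 ≤
        ((n - t).choose (r - t) : ℝ) * ((n - r).choose (k - r) : ℝ) ^ 2 := by
      have h3 : 2 * ((∑ R ∈ slice n r, (deg F R : ℝ) ^ 2) * ((n - t).choose (k - t) : ℝ)) ≤
          ((n - t).choose (k - t) : ℝ) * ∑ R ∈ slice n r, (deg (star k T) R : ℝ) ^ 2 := by
        calc 2 * ((∑ R ∈ slice n r, (deg F R : ℝ) ^ 2) * ((n - t).choose (k - t) : ℝ)) ≤
            2 * ((F.card : ℝ) * ∑ R ∈ slice n r, (deg (star k T) R : ℝ) ^ 2) := by linarith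
          _ = (2 * (F.card : ℝ)) * ∑ R ∈ slice n r, (deg (star k T) R : ℝ) ^ 2 := by ring
          _ ≤ _ := mul_le_mul_of_nonneg_right hhr hZ
      have h4 : 2 * (∑ R ∈ slice n r, (deg F R : ℝ) ^ 2) ≤
          ∑ R ∈ slice n r, (deg (star k T) R : ℝ) ^ 2 := by
        refine le_of_mul_le_mul_right ?_ hDr
        calc 2 * (∑ R ∈ slice n r, (deg F R : ℝ) ^ 2) * ((n - t).choose (k - t) : ℝ) =
            2 * ((∑ R ∈ slice n r, (deg F R : ℝ) ^ 2) * ((n - t).choose (k - t) : ℝ)) := by ring
          _ ≤ _ := h3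
          _ = _ := by ring
      linarith
    -- the p-th moments
    have h5 : ell r p F ≤ ((n - r).choose (k - r) : ℝ) ^ (p - 2) *
        ∑ R ∈ slice n r, (deg F R : ℝ) ^ 2 := by
      rw [mul_sum]
      refine sum_le_sum fun R hR => ?_
      have hRc : R.card = r := (mem_powersetCard.1 hR).2
      refine pow_le _ _ p (Nat.cast_nonneg _) ?_ hp
      have := deg_le n k F hF.1 R (by omega)
      rw [hRc] at this
      exact_mod_cast this
    have h6 : ((n - r).choose (k - r) : ℝ) ^ (p - 2) * ((n - r).choose (k - r) : ℝ) ^ 2 =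
        ((n - r).choose (k - r) : ℝ) ^ p := by
      rw [← Real.rpow_natCast _ 2, ← Real.rpow_add hs0]
      congr 1
      push_cast
      ring
    calc ell r p F ≤ ((n - r).choose (k - r) : ℝ) ^ (p - 2) *
        ∑ R ∈ slice n r, (deg F R : ℝ) ^ 2 := h5
      _ ≤ ((n - r).choose (k - r) : ℝ) ^ (p - 2) *
          (((n - t).choose (r - t) : ℝ) * ((n - r).choose (k - r) : ℝ) ^ 2) :=
        mul_le_mul_of_nonneg_left h2 (Real.rpow_nonneg hs0.le _)
      _ = ((n - t).choose (r - t) : ℝ) * (((n - r).choose (k - r) : ℝ) ^ (p - 2) *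
          ((n - r).choose (k - r) : ℝ) ^ 2) := by ring
      _ = ((n - t).choose (r - t) : ℝ) * ((n - r).choose (k - r) : ℝ) ^ p := by rw [h6]
      _ ≤ ell r p (star k T) := hB p (by linarith)

theorem t_FIN3 (hF2 : S_FIN2) (hB : S_BIG) : S_FIN3 := by
  refine ⟨?_, hF2.2⟩
  intro n k t r p F T ht hk hr hrk hn hF hT hp hc
  rcases hc with h | h | h
  · exact hF2.1 n k t r p F T ht hk hr hrk hn hF hT (Or.inl h)
  · exact hF2.1 n k t r p F T ht hk hr hrk hn hF hT (Or.inr ⟨h, hp⟩)
  · by_cases hrt : r ≤ t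
    · exact hF2.1 n k t r p F T ht hk hr hrk hn hF hT (Or.inr ⟨hrt, hp⟩)
    · exact hB n k t r p F T ht (by omega) (by omega) (by omega) h hF hT hp

end Pool.Agent.P8H90.TI
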